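import Pool.Agent.H84.SM.Targets

/-!
# ELI: elimination of `w` by the resultant
-/

set_option autoImplicit false

open MvPolynomial SC Pool.Agent.H27.LV Pool.Agent.H84.SM

namespace Pool.Agent.H33.SM

/-- comparison of coefficients of a vector valued polynomial -/
theorem vand {k V : Type} [Field k] [Infinite k] [AddCommGroup V] [Module k V] (s : Finset ℕ)
    (v : ℕ → V) (h : ∀ t : k, ∑ n ∈ s, t ^ n • v n = 0) : ∀ n ∈ s, v n = 0 := by
  intro n hn
  rw [← Module.forall_dual_apply_eq_zero_iff k]
  intro ℓ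
  have hp : ∑ n ∈ s, Polynomial.monomial n (ℓ (v n)) = (0 : Polynomial k) := by
    apply Polynomial.funext
    intro t
    rw [Polynomial.eval_finsetSum, Polynomial.eval_zero]
    have h1 := congrArg ℓ (h t)
    rw [map_sum, map_zero] at h1
    rw [← h1]
    refine Finset.sum_congr rfl fun n _ => ?_
    rw [Polynomial.eval_monomial, map_smul, smul_eq_mul, mul_comm]
  have h2 := congrArg (fun p => Polynomial.coeff p n) hp
  simpa [Polynomial.finsetSum_coeff, Polynomial.coeff_monomial, hn] using h2

/-- scaling of the variables by powers of `t` -/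
noncomputable def sca {σ k : Type} [Field k] (w : σ → ℕ) (t : k) :
    MvPolynomial σ k →ₐ[k] MvPolynomial σ k := aeval fun s => C (t ^ w s) * X s

theorem sca_X {σ k : Type} [Field k] (w : σ → ℕ) (t : k) (s : σ) :
    sca w t (X s) = C (t ^ w s) * X s := by
  rw [sca, aeval_X]

theorem sca_monomial {σ k : Type} [Field k] (w : σ → ℕ) (t : k) (d : σ →₀ ℕ) (a : k) :
    sca w t (monomial d a) = t ^ (Finsupp.weight w d) • monomial d a := by
  rw [sca, aeval_monomial, Finsupp.prod]
  simp only [mul_pow]
  rw [Finset.prod_mul_distrib, ← Finsupp.prod, ← Finsupp.prod, smul_monomial, smul_eq_mul]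
  have h1 : (d.prod fun i n => (C (t ^ w i) : MvPolynomial σ k) ^ n) =
      C (t ^ (Finsupp.weight w d)) := by
    rw [Finsupp.weight_apply, Finsupp.prod, Finsupp.sum, ← Finset.prod_pow_eq_pow_sum, map_prod]
    refine Finset.prod_congr rfl fun i _ => ?_
    rw [← C_pow, ← pow_mul, smul_eq_mul, mul_comm (w i)]
  have h2 : monomial d (t ^ (Finsupp.weight w d) * a) =
      (C (t ^ (Finsupp.weight w d)) * C a * (d.prod fun n e => (X n : MvPolynomial σ k) ^ e)) := by
    rw [monomial_eq, C_mul]
  rw [h1, h2, algebraMap_eq]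
  ring

theorem sca_eq {σ k : Type} [Field k] (w : σ → ℕ) (t : k) (f : MvPolynomial σ k) :
    sca w t f = ∑ n ∈ f.support.image (fun d => Finsupp.weight w d),
      t ^ n • weightedHomogeneousComponent w n f := by
  classical
  conv_lhs => rw [f.as_sum]
  rw [map_sum, ← Finset.sum_fiberwise_of_maps_to
    (g := fun d => Finsupp.weight w d) (t := f.support.image fun d => Finsupp.weight w d)
    (fun d hd => Finset.mem_image_of_mem _ hd)]
  refine Finset.sum_congr rfl fun n _ => ?_
  rw [weightedHomogeneousComponent_apply, Finset.smul_sum]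
  refine Finset.sum_congr rfl fun d hd => ?_
  rw [sca_monomial, (Finset.mem_filter.1 hd).2]

/-- a linear map which vanishes on all scalings vanishes on all components -/
theorem comp_zero {σ k V : Type} [Field k] [Infinite k] [AddCommGroup V] [Module k V]
    (w : σ → ℕ) (Λ : MvPolynomial σ k →ₗ[k] V) (f : MvPolynomial σ k)
    (h : ∀ t : k, Λ (sca w t f) = 0) (n : ℕ) : Λ (weightedHomogeneousComponent w n f) = 0 := by
  classical
  by_cases hn : n ∈ f.support.image (fun d => Finsupp.weight w d)
  · refine vand (k := k) (f.support.image (fun d => Finsupp.weight w d))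
      (fun n => Λ (weightedHomogeneousComponent w n f)) (fun t => ?_) n hn
    rw [← h t, sca_eq, map_sum]
    simp only [map_smul]
  · rw [weightedHomogeneousComponent_apply, Finset.filter_eq_empty_iff.2, Finset.sum_empty,
      map_zero]
    intro d hd h1
    exact hn (h1 ▸ Finset.mem_image_of_mem _ hd)

section

variable {k : Type} [Field k]

/-- total weights -/
def wt : Fin 3 ⊕ Fin 3 → ℕ := fun _ => 1

theorem weight_wt (d : Fin 3 ⊕ Fin 3 →₀ ℕ) :
    Finsupp.weight wt d = Finsupp.weight wx d + Finsupp.weight wy d := by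
  rw [Finsupp.weight_apply, Finsupp.weight_apply, Finsupp.weight_apply, Finsupp.sum, Finsupp.sum,
    Finsupp.sum, ← Finset.sum_add_distrib]
  refine Finset.sum_congr rfl fun i _ => ?_
  rcases i with i | i <;> simp [wt, wx, wy]

theorem dv_inl (i : Fin 3) : dv (X (Sum.inl i) : A2 k) = 0 := by
  rw [dv, mkDerivation_X]
  rfl

theorem dv_inr (i : Fin 3) : dv (X (Sum.inr i) : A2 k) = X (Sum.inl i) := by
  rw [dv, mkDerivation_X]
  rfl

/-- the scaling `x ↦ c x`, `y ↦ c μ y` -/
noncomputable def sc2 (c μ : k) (f : A2 k) : A2 k := sca wt c (sca wy μ f)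

theorem sc2_X (c μ : k) (s : Fin 3 ⊕ Fin 3) :
    sc2 c μ (X s) = C (c * μ ^ wy s) * X s := by
  rw [sc2, sca_X, map_mul, sca_X]
  have : sca wt c (C (μ ^ wy s) : A2 k) = C (μ ^ wy s) := (sca wt c).commutes _
  rw [this, wt, pow_one, C_mul]
  ring

theorem dv_sc2 (c μ : k) (f : A2 k) : dv (sc2 c μ f) = C μ * sc2 c μ (dv f) := by
  induction f using MvPolynomial.induction_on with
  | C a =>
    have h1 : sc2 c μ (C a : A2 k) = C a := by
      rw [sc2]
      have h2 : sca wy μ (C a : A2 k) = C a := (sca wy μ).commutes a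
      rw [h2]
      exact (sca wt c).commutes a
    have h3 : dv (C a : A2 k) = 0 := dv.map_algebraMap a
    rw [h1, h3, sc2, map_zero, map_zero, mul_zero]
  | add p q hp hq =>
    have h1 : ∀ p q : A2 k, sc2 c μ (p + q) = sc2 c μ p + sc2 c μ q := by
      intro p q
      rw [sc2, map_add, map_add]
      rfl
    rw [h1, map_add, hp, hq, map_add, h1]
    ring
  | mul_X p s hp =>
    have h0 : ∀ p q : A2 k, sc2 c μ (p * q) = sc2 c μ p * sc2 c μ q := by
      intro p q
      rw [sc2, map_mul, map_mul]
      rfl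
    have h1 : ∀ p q : A2 k, sc2 c μ (p + q) = sc2 c μ p + sc2 c μ q := by
      intro p q
      rw [sc2, map_add, map_add]
      rfl
    have h2 : dv (sc2 c μ (X s)) = C μ * sc2 c μ (dv (X s)) := by
      rw [sc2_X]
      have hC : ∀ a : k, dv (C a : A2 k) = 0 := fun a => dv.map_algebraMap a
      rw [Derivation.leibniz, hC, smul_zero, add_zero, smul_eq_mul]
      rcases s with i | i
      · rw [dv_inl, mul_zero, sc2, map_zero, map_zero, mul_zero]
      · rw [dv_inr, sc2_X]
        simp only [wy, Sum.elim_inr, Sum.elim_inl, pow_one, pow_zero, mul_one, C_mul]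
        ring
    rw [h0, Derivation.leibniz, hp, h2, Derivation.leibniz, smul_eq_mul, smul_eq_mul, smul_eq_mul,
      smul_eq_mul, h1, h0, h0]
    ring

/-- the constants of `dv` -/
noncomputable def cst : Subring (A2 k) where
  carrier := {c | dv c = 0}
  mul_mem' := by
    intro a b ha hb
    have ha' : dv a = 0 := ha
    have hb' : dv b = 0 := hb
    change dv (a * b) = 0
    rw [Derivation.leibniz, ha', hb', smul_zero, smul_zero, add_zero]
  one_mem' := by
    change dv 1 = 0
    exact Derivation.map_one_eq_zero _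
  add_mem' := by
    intro a b ha hb
    have ha' : dv a = 0 := ha
    have hb' : dv b = 0 := hb
    change dv (a + b) = 0
    rw [map_add, ha', hb', add_zero]
  zero_mem' := map_zero _
  neg_mem' := by
    intro a ha
    have ha' : dv a = 0 := ha
    change dv (-a) = 0
    rw [map_neg, ha', neg_zero]

theorem inv_lift (N : R2 k) (hN : Inv N) :
    ∃ N0 : Polynomial (cst (k := k)), N0.map (cst (k := k)).subtype = N := by
  refine ⟨∑ j ∈ Finset.range (N.natDegree + 1), Polynomial.monomial j ⟨N.coeff j, hN j⟩, ?_⟩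
  rw [Polynomial.map_sum]
  conv_rhs => rw [N.as_sum_range]
  refine Finset.sum_congr rfl fun j _ => ?_
  rw [Polynomial.map_monomial]
  rfl

theorem dv_resultant (P N : R2 k) (hP : Inv P) (hN : Inv N) (m n : ℕ) :
    dv (P.resultant N m n) = 0 := by
  obtain ⟨P0, rfl⟩ := inv_lift P hP
  obtain ⟨N0, rfl⟩ := inv_lift N hN
  rw [Polynomial.resultant_map_map]
  exact (P0.resultant N0 m n).2

theorem resultant_ne (P N : R2 k) (hP : Irreducible P) (hd : 1 ≤ P.natDegree) (hPN : ¬ P ∣ N) :
    P.resultant N ≠ 0 := by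
  have hP0 : P ≠ 0 := hP.ne_zero
  have hpr : P.IsPrimitive := hP.isPrimitive (by omega)
  have hinj : Function.Injective (algebraMap (A2 k) (F2 k)) := IsFractionRing.injective _ _
  have hirr : Irreducible (P.map (algebraMap (A2 k) (F2 k))) :=
    (hpr.irreducible_iff_irreducible_map_fraction_map).1 hP
  have hnd : ¬ P.map (algebraMap (A2 k) (F2 k)) ∣ N.map (algebraMap (A2 k) (F2 k)) := by
    rintro ⟨Q, hQ⟩
    obtain ⟨a, ha, hQ'⟩ := IsLocalization.integerNormalization_spec
      (nonZeroDivisors (A2 k)) Q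
    set Q' := IsLocalization.integerNormalization (nonZeroDivisors (A2 k)) Q with hQ'd
    have h1 : (Polynomial.C (a : A2 k) * N).map (algebraMap (A2 k) (F2 k)) =
        (P * Q').map (algebraMap (A2 k) (F2 k)) := by
      rw [Polynomial.map_mul, Polynomial.map_mul, hQ, hQ', Polynomial.map_C,
        ← algebraMap_smul (F2 k) a Q, Polynomial.smul_eq_C_mul]
      ring
    have h2 : P ∣ Polynomial.C (a : A2 k) * N := ⟨Q', Polynomial.map_injective _ hinj h1⟩
    rcases hP.prime.dvd_or_dvd h2 with h3 | h3
    · have h4 : (Polynomial.C (a : A2 k)) ≠ 0 := by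
        rw [Ne, Polynomial.C_eq_zero]
        exact nonZeroDivisors.ne_zero ha
      have h5 := Polynomial.natDegree_le_of_dvd h3 h4
      rw [Polynomial.natDegree_C] at h5
      omega
    · exact hPN h3
  have hc : IsCoprime (P.map (algebraMap (A2 k) (F2 k))) (N.map (algebraMap (A2 k) (F2 k))) :=
    (hirr.coprime_iff_not_dvd).2 hnd
  intro h0
  have h1 : (P.map (algebraMap (A2 k) (F2 k))).resultant (N.map (algebraMap (A2 k) (F2 k))) = 0 := by
    have h2 := Polynomial.resultant_map_map P N P.natDegree N.natDegree (algebraMap (A2 k) (F2 k))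
    rw [h0, map_zero] at h2
    rw [← h2, Polynomial.natDegree_map_eq_of_injective hinj,
      Polynomial.natDegree_map_eq_of_injective hinj]
  exact (Polynomial.resultant_eq_zero_iff.1 h1).2 hc

end

theorem ev_C' {k : Type} [Field k] {L : Type} [CommRing L] [Algebra k L] (x y : Fin 3 → L) (w : L)
    (c : A2 k) : ev x y w (Polynomial.C c) = aeval (Sum.elim x y) c := by
  rw [ev, Polynomial.coe_eval₂RingHom, Polynomial.eval₂_C]
  rfl

theorem aeval_sc2 {k : Type} [Field k] {K : Type} [Field K] [Algebra k K] (x y : Fin 3 → K)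
    (c μ : k) (f : A2 k) : aeval (Sum.elim x y) (sc2 c μ f) =
      aeval (Sum.elim (fun i => algebraMap k K c * x i)
        (fun i => algebraMap k K c * algebraMap k K μ * y i + 0 * x i)) f := by
  have h : ((aeval (Sum.elim x y) : A2 k →ₐ[k] K).comp ((sca wt c).comp (sca wy μ))) =
      aeval (Sum.elim (fun i => algebraMap k K c * x i)
        (fun i => algebraMap k K c * algebraMap k K μ * y i + 0 * x i)) := by
    refine MvPolynomial.algHom_ext fun s => ?_
    change aeval (Sum.elim x y) (sc2 c μ (X s)) = _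
    rw [sc2_X, map_mul, aeval_X, aeval_X]
    have h1 : aeval (Sum.elim x y) (C (c * μ ^ wy s) : A2 k) = algebraMap k K (c * μ ^ wy s) :=
      (aeval (Sum.elim x y)).commutes _
    rw [h1]
    rcases s with i | i
    · simp only [wy, Sum.elim_inl, pow_zero, mul_one]
    · simp only [wy, Sum.elim_inr, pow_one, map_mul, zero_mul, add_zero]
  exact congrArg (fun φ => φ f) h

theorem pf_ELI (hSCL : T_SCL) : T_ELI := by
  intro k _ _ _ e m e' n P N hP hd hPi hPh hNi hNh hPN
  classical
  have : Infinite k := IsAlgClosed.instInfinite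
  obtain ⟨R, hR⟩ : ∃ R, R = P.resultant N := ⟨_, rfl⟩
  have hR0 : R ≠ 0 := hR ▸ resultant_ne P N hP hd hPN
  have hRv : dv R = 0 := hR ▸ dv_resultant P N hPi hNi _ _
  obtain ⟨a, b, -, -, hab⟩ := Polynomial.exists_mul_add_mul_eq_C_resultant P N le_rfl le_rfl
    (Or.inl (by omega))
  rw [← hR] at hab
  obtain ⟨d, hdR⟩ := MvPolynomial.ne_zero_iff.1 hR0
  obtain ⟨i, hi⟩ : ∃ i, i = Finsupp.weight wy d := ⟨_, rfl⟩
  obtain ⟨n1, hn1⟩ : ∃ n1, n1 = Finsupp.weight wt d := ⟨_, rfl⟩
  have key : ∀ (V : Type) [AddCommGroup V] [Module k V] (Λ : A2 k →ₗ[k] V),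
      (∀ c μ : k, Λ (sc2 c μ R) = 0) →
      Λ (weightedHomogeneousComponent wt n1 (weightedHomogeneousComponent wy i R)) = 0 := by
    intro V _ _ Λ h
    have h1 : ∀ μ : k, Λ (weightedHomogeneousComponent wt n1 (sca wy μ R)) = 0 :=
      fun μ => comp_zero wt Λ _ (fun c => h c μ) n1
    exact comp_zero wy (Λ.comp (weightedHomogeneousComponent wt n1)) R h1 i
  refine ⟨weightedHomogeneousComponent wt n1 (weightedHomogeneousComponent wy i R), ?_, ?_,
    ⟨n1 - i, i, ?_, ?_⟩, ?_⟩
  · refine MvPolynomial.ne_zero_iff.2 ⟨d, ?_⟩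
    rw [coeff_weightedHomogeneousComponent, if_pos hn1.symm, coeff_weightedHomogeneousComponent,
      if_pos hi.symm]
    exact hdR
  · refine key (A2 k) ((dv : Derivation k (A2 k) (A2 k)) : A2 k →ₗ[k] A2 k) fun c μ => ?_
    change dv (sc2 c μ R) = 0
    rw [dv_sc2, hRv, sc2, map_zero, map_zero, mul_zero]
  · intro d' hd'
    rw [coeff_weightedHomogeneousComponent] at hd'
    split_ifs at hd' with h1
    · rw [coeff_weightedHomogeneousComponent] at hd'
      split_ifs at hd' with h2
      · rw [weight_wt] at h1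
        omega
      · exact absurd rfl hd'
    · exact absurd rfl hd'
  · intro d' hd'
    rw [coeff_weightedHomogeneousComponent] at hd'
    split_ifs at hd' with h1
    · rw [coeff_weightedHomogeneousComponent] at hd'
      split_ifs at hd' with h2
      · exact h2
      · exact absurd rfl hd'
    · exact absurd rfl hd'
  · intro K _ _ D x hxP hxN
    refine key K ((aeval (Sum.elim x fun i => D (x i)) : A2 k →ₐ[k] K).toLinearMap) fun c μ => ?_
    change aeval (Sum.elim x fun i => D (x i)) (sc2 c μ R) = 0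
    rw [aeval_sc2, ← ev_C' _ _ ((algebraMap k K c) ^ 3 * (algebraMap k K μ) ^ 3 *
      (dt x (fun i => D (x i)) (fun i => D (D (x i))))), ← hab, map_add, map_mul, map_mul,
      hSCL k e m P hPi hPh, hSCL k e' n N hNi hNh]
    have hP0 : ev x (fun i => D (x i)) (dt x (fun i => D (x i)) (fun i => D (D (x i)))) P = 0 := hxP
    have hN0 : ev x (fun i => D (x i)) (dt x (fun i => D (x i)) (fun i => D (D (x i)))) N = 0 := hxN
    rw [hP0, hN0]
    ring

end Pool.Agent.H33.SM
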